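import Pool.Agent.Run7.h84.MG.Num

set_option autoImplicit false

/-!
# Final forms
-/

open scoped Pointwise

namespace Pool.Agent.Run7.h84.MG

open Finset

open Classical in
theorem part2 (k : ℕ) (hk : 1 ≤ k) (ε : ℝ) (hε : 0 < ε) :
    ∃ δ₀ : ℝ, 0 < δ₀ ∧ ∀ δ : ℝ, 0 < δ → δ ≤ δ₀ → ∀ (N r : ℕ) (t : Fin r → ℚ), 16 ≤ N →
      (∀ i, 0 < t i) → (r : ℝ) * Real.log (Real.log N) ≤ δ * Real.log N →
      ∀ A : Finset ℤ, N ≤ A.card → (N : ℝ) ^ (1 - δ) ≤ (A.filter fun a => Thin t N δ a).card →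
      (N : ℝ) ^ ((k : ℝ) - ε) ≤
        4 ^ k * (((Fintype.piFinset fun _ : Fin k => A).image fun f => ∏ i, f i).card : ℝ) ∨
      ∀ B : Finset ℤ, B.Nonempty → (N : ℝ) ^ ((k : ℝ) - ε) * (B.card : ℝ) ^ (1 - ε) ≤
        4 ^ k *
          ((((Fintype.piFinset fun _ : Fin k => A).image fun f => ∑ i, f i) + B).card : ℝ) := by
  have hk0 : (0 : ℝ) < k := by exact_mod_cast hk
  obtain ⟨δ₁, hδ₁, h⟩ := part1 k hk (ε / 2) (by positivity)
  refine ⟨min δ₁ (ε / (2 * k)), lt_min hδ₁ (by positivity), ?_⟩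
  intro δ hδ0 hδ N r t hN ht hr A hA hth
  have hδk : k * δ ≤ ε / 2 := by
    have : δ ≤ ε / (2 * k) := hδ.trans (min_le_right _ _)
    calc k * δ ≤ k * (ε / (2 * k)) := mul_le_mul_of_nonneg_left this hk0.le
      _ = ε / 2 := by field_simp
  have hN16 : (16 : ℝ) ≤ N := by exact_mod_cast hN
  have hN0 : (0 : ℝ) < N := by linarith
  set A' := A.filter fun a => Thin t N δ a with hA'
  obtain ⟨A₂, hA₂, hcard⟩ := exists_subset_card_eq (s := A') (n := min N A'.card)
    (min_le_right _ _)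
  have hA₂N : A₂.card ≤ N := hcard ▸ min_le_left _ _
  have hlow : (N : ℝ) ^ (1 - δ) ≤ A₂.card := by
    rw [hcard]
    rcases le_total N A'.card with h1 | h1
    · rw [min_eq_left h1]
      calc (N : ℝ) ^ (1 - δ) ≤ (N : ℝ) ^ (1 : ℝ) :=
            Real.rpow_le_rpow_of_exponent_le (by linarith) (by linarith)
        _ = N := Real.rpow_one _
    · rw [min_eq_right h1]
      exact hth
  obtain ⟨S, hSA, hcount, hsum⟩ := h δ hδ0 (hδ.trans (min_le_left _ _)) N r t hN ht hr A₂ hA₂N
    (fun a ha => (mem_filter.1 (hA₂ ha)).2)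
  have hsplit : (S.card : ℝ) + ((A₂ \ S).card : ℝ) = A₂.card := by
    have := card_sdiff_add_card_eq_card hSA
    exact_mod_cast (by omega : S.card + (A₂ \ S).card = A₂.card)
  have hpw : ∀ x : ℝ, (A₂.card : ℝ) / 2 ≤ x → (N : ℝ) ^ ((k : ℝ) - ε / 2) ≤ 2 ^ k * x ^ k := by
    intro x hx
    have h1 : (N : ℝ) ^ (1 - δ) ≤ 2 * x := by linarith
    calc (N : ℝ) ^ ((k : ℝ) - ε / 2) ≤ (N : ℝ) ^ ((1 - δ) * k) :=
          Real.rpow_le_rpow_of_exponent_le (by linarith) (by nlinarith)
      _ = ((N : ℝ) ^ (1 - δ)) ^ k := by rw [Real.rpow_mul hN0.le, Real.rpow_natCast]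
      _ ≤ (2 * x) ^ k := pow_le_pow_left₀ (by positivity) h1 k
      _ = 2 ^ k * x ^ k := mul_pow _ _ _
  have hNN : (N : ℝ) ^ ((k : ℝ) - ε / 2) = (N : ℝ) ^ ((k : ℝ) - ε) * (N : ℝ) ^ (ε / 2) := by
    rw [← Real.rpow_add hN0]
    congr 1
    ring
  have hNe : 0 < (N : ℝ) ^ (ε / 2) := by positivity
  have hA₂A : A₂ ⊆ A := hA₂.trans (filter_subset _ _)
  rcases le_total ((A₂.card : ℝ) / 2) ((A₂ \ S).card : ℝ) with h1 | h1
  · left
    have h2 := hpw _ h1
    have h3 : ((A₂ \ S).card : ℝ) ^ k ≤ 2 ^ k * (N : ℝ) ^ (ε / 2) *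
        (((Fintype.piFinset fun _ : Fin k => A).image fun f => ∏ i, f i).card : ℝ) := by
      have h4 : ((Fintype.piFinset fun _ : Fin k => A₂ \ S).card : ℝ) = ((A₂ \ S).card : ℝ) ^ k := by
        rw [Fintype.card_piFinset, prod_const, card_univ, Fintype.card_fin]
        push_cast
        rfl
      rw [← h4, card_eq_sum_card_image (fun f : Fin k → ℤ => ∏ i, f i)]
      push_cast
      calc ∑ u ∈ (Fintype.piFinset fun _ : Fin k => A₂ \ S).image fun f => ∏ i, f i,
            (((Fintype.piFinset fun _ : Fin k => A₂ \ S).filter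
              fun f => ∏ i, f i = u).card : ℝ)
          ≤ ∑ _u ∈ (Fintype.piFinset fun _ : Fin k => A₂ \ S).image fun f => ∏ i, f i,
            2 ^ k * (N : ℝ) ^ (ε / 2) := sum_le_sum fun u _ => hcount u
        _ = (((Fintype.piFinset fun _ : Fin k => A₂ \ S).image
              fun f => ∏ i, f i).card : ℝ) * (2 ^ k * (N : ℝ) ^ (ε / 2)) := by
            rw [sum_const, nsmul_eq_mul]
        _ ≤ (((Fintype.piFinset fun _ : Fin k => A).image fun f => ∏ i, f i).card : ℝ) *
              (2 ^ k * (N : ℝ) ^ (ε / 2)) := by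
            refine mul_le_mul_of_nonneg_right ?_ (by positivity)
            have h5 : ((Fintype.piFinset fun _ : Fin k => A₂ \ S).image
                fun f => ∏ i, f i).card ≤
                ((Fintype.piFinset fun _ : Fin k => A).image fun f => ∏ i, f i).card :=
              card_le_card (image_subset_image (Fintype.piFinset_subset _ _
                fun _ => sdiff_subset.trans hA₂A))
            exact_mod_cast h5
        _ = _ := by ring
    have h6 : (N : ℝ) ^ ((k : ℝ) - ε) * (N : ℝ) ^ (ε / 2) ≤ (4 ^ k *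
        (((Fintype.piFinset fun _ : Fin k => A).image fun f => ∏ i, f i).card : ℝ)) *
          (N : ℝ) ^ (ε / 2) := by
      rw [← hNN]
      refine h2.trans ?_
      calc 2 ^ k * ((A₂ \ S).card : ℝ) ^ k ≤ 2 ^ k * (2 ^ k * (N : ℝ) ^ (ε / 2) *
          (((Fintype.piFinset fun _ : Fin k => A).image fun f => ∏ i, f i).card : ℝ)) :=
            mul_le_mul_of_nonneg_left h3 (by positivity)
        _ = _ := by
            rw [show (4 : ℝ) = 2 * 2 by norm_num, mul_pow]
            ring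
    exact le_of_mul_le_mul_right h6 hNe
  · right
    intro B hB
    have hB1 : (1 : ℝ) ≤ B.card := by exact_mod_cast hB.card_pos
    have h2 := hpw (S.card : ℝ) (by linarith)
    have h3 := hsum B hB
    have h4 : (B.card : ℝ) ^ (1 - ε) ≤ (B.card : ℝ) ^ (1 - ε / 2) :=
      Real.rpow_le_rpow_of_exponent_le hB1 (by linarith)
    have h5 : ((((Fintype.piFinset fun _ : Fin k => S).image fun f => ∑ i, f i) + B).card : ℝ) ≤
        ((((Fintype.piFinset fun _ : Fin k => A).image fun f => ∑ i, f i) + B).card : ℝ) := by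
      have : (((Fintype.piFinset fun _ : Fin k => S).image fun f => ∑ i, f i) + B).card ≤
          (((Fintype.piFinset fun _ : Fin k => A).image fun f => ∑ i, f i) + B).card :=
        card_le_card (add_subset_add_right (image_subset_image (Fintype.piFinset_subset _ _
          fun _ => hSA.trans hA₂A)))
      exact_mod_cast this
    have h6 : ((N : ℝ) ^ ((k : ℝ) - ε) * (B.card : ℝ) ^ (1 - ε)) * (N : ℝ) ^ (ε / 2) ≤ (4 ^ k *
        ((((Fintype.piFinset fun _ : Fin k => A).image fun f => ∑ i, f i) + B).card : ℝ)) *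
          (N : ℝ) ^ (ε / 2) := by
      calc ((N : ℝ) ^ ((k : ℝ) - ε) * (B.card : ℝ) ^ (1 - ε)) * (N : ℝ) ^ (ε / 2)
          = (N : ℝ) ^ ((k : ℝ) - ε / 2) * (B.card : ℝ) ^ (1 - ε) := by rw [hNN]; ring
        _ ≤ (2 ^ k * (S.card : ℝ) ^ k) * (B.card : ℝ) ^ (1 - ε / 2) :=
            mul_le_mul h2 h4 (by positivity) (by positivity)
        _ = 2 ^ k * ((S.card : ℝ) ^ k * (B.card : ℝ) ^ (1 - ε / 2)) := by ring
        _ ≤ 2 ^ k * ((N : ℝ) ^ (ε / 2) *
            ((((Fintype.piFinset fun _ : Fin k => A).image fun f => ∑ i, f i) + B).card : ℝ)) := by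
            refine mul_le_mul_of_nonneg_left (h3.trans ?_) (by positivity)
            exact mul_le_mul_of_nonneg_left h5 hNe.le
        _ ≤ 4 ^ k * ((N : ℝ) ^ (ε / 2) *
            ((((Fintype.piFinset fun _ : Fin k => A).image fun f => ∑ i, f i) + B).card : ℝ)) := by
            refine mul_le_mul_of_nonneg_right ?_ (by positivity)
            exact pow_le_pow_left₀ (by norm_num) (by norm_num) k
        _ = _ := by ring
    exact le_of_mul_le_mul_right h6 hNe

/-! ### Bounded height and few prime factors -/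

theorem card_divisors_le_two_pow (m : ℕ) (hm : m ≠ 0) :
    m.divisors.card ≤ 2 ^ ArithmeticFunction.cardFactors m := by
  rw [Nat.card_divisors hm, ArithmeticFunction.cardFactors_eq_sum_factorization]
  unfold Finsupp.sum
  rw [← prod_pow_eq_pow_sum]
  exact prod_le_prod' fun p _ => Nat.lt_two_pow_self

theorem val_le_cardFactors (m p : ℕ) : m.factorization p ≤ ArithmeticFunction.cardFactors m := by
  rw [ArithmeticFunction.cardFactors_apply, ← Nat.primeFactorsList_count_eq]
  exact List.count_le_length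

theorem val_le_log (b p : ℕ) (hb : b ≠ 0) : 2 ^ b.factorization p ≤ b := by
  by_cases hp : p.Prime
  · calc 2 ^ b.factorization p ≤ p ^ b.factorization p := Nat.pow_le_pow_left hp.two_le _
      _ ≤ b := Nat.le_of_dvd (Nat.pos_of_ne_zero hb) (Nat.ordProj_dvd b p)
  · rw [Nat.factorization_eq_zero_of_not_prime _ hp, pow_zero]
    exact Nat.pos_of_ne_zero hb

theorem thin_of_height (C : ℝ) (hC : 0 ≤ C) (δ : ℝ) (hδ : 0 < δ) :
    ∃ δ' : ℝ, 0 < δ' ∧ ∃ N₀ : ℕ, ∀ (N r : ℕ) (t : Fin r → ℚ), N₀ ≤ N →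
      (r : ℝ) * Real.log (Real.log N) ≤ δ' * Real.log N →
      ∀ (a : ℤ) (e : Fin r → ℤ) (b m : ℕ), b ≠ 0 → m ≠ 0 → (b : ℝ) ≤ (N : ℝ) ^ C →
      (ArithmeticFunction.cardFactors m : ℝ) ≤ δ' * Real.log N →
      |(a : ℚ)| = (∏ i, t i ^ e i) * (b * m) → Thin t N δ a := by
  obtain ⟨C₀, hC₀, hdiv⟩ := H505R2.div_bound (δ := δ / (3 * (C + 1))) (by positivity)
  set K : ℝ := 2 * C + 2 with hK
  have hlK : 0 ≤ Real.log K := Real.log_nonneg (by linarith)
  set δ' : ℝ := min 1 (δ / (3 * (Real.log K + 2))) with hδ'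
  have hδ'0 : 0 < δ' := lt_min one_pos (by positivity)
  have hδ'1 : δ' ≤ 1 := min_le_left _ _
  have hδ'K : (Real.log K + 2) * δ' ≤ δ / 3 := by
    have : δ' ≤ δ / (3 * (Real.log K + 2)) := min_le_right _ _
    calc (Real.log K + 2) * δ' ≤ (Real.log K + 2) * (δ / (3 * (Real.log K + 2))) :=
          mul_le_mul_of_nonneg_left this (by linarith)
      _ = δ / 3 := by field_simp
  obtain ⟨N₁, hN₁⟩ := exists_nat_ge (Real.exp (3 * Real.log C₀ / δ))
  refine ⟨δ', hδ'0, max 16 N₁, ?_⟩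
  intro N r t hN hr a e b m hb hm hbC hmΩ ha
  have hN16 : (16 : ℝ) ≤ N := by exact_mod_cast (le_max_left _ _).trans hN
  have hNN₁ : (N₁ : ℝ) ≤ N := by exact_mod_cast (le_max_right _ _).trans hN
  have hN0 : (0 : ℝ) < N := by linarith
  set ℓ : ℝ := Real.log N with hℓ
  have hℓe : Real.exp 1 ≤ ℓ := log16.trans (Real.log_le_log (by norm_num) hN16)
  have hℓ2 : 2 ≤ ℓ := by
    have := Real.exp_one_gt_d9
    linarith
  have hℓ0 : 0 < ℓ := by linarith
  have hNexp : ∀ x : ℝ, (N : ℝ) ^ x = Real.exp (x * ℓ) := by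
    intro x
    rw [Real.rpow_def_of_pos hN0, mul_comm]
  have hC₀N : C₀ ≤ (N : ℝ) ^ (δ / 3) := by
    have h1 : 3 * Real.log C₀ / δ ≤ ℓ := by
      rw [hℓ, Real.le_log_iff_exp_le hN0]
      exact hN₁.trans hNN₁
    rw [hNexp, ← Real.log_le_iff_le_exp (by linarith)]
    rw [div_le_iff₀ hδ] at h1
    linarith
  refine ⟨e, b * m, mul_ne_zero hb hm, by rw [ha]; push_cast; ring, ?_, ?_⟩
  · have h1 : ((b * m).divisors.card : ℝ) ≤ b.divisors.card * m.divisors.card := by
      rw [Nat.divisors_mul]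
      exact_mod_cast card_mul_le
    have h2 : (b.divisors.card : ℝ) ≤ (N : ℝ) ^ (δ / 3) * (N : ℝ) ^ (δ / 3) := by
      refine (hdiv b hb).trans ?_
      refine mul_le_mul hC₀N ?_ (by positivity) (by positivity)
      calc (b : ℝ) ^ (δ / (3 * (C + 1))) ≤ ((N : ℝ) ^ C) ^ (δ / (3 * (C + 1))) :=
            Real.rpow_le_rpow (Nat.cast_nonneg _) hbC (by positivity)
        _ = (N : ℝ) ^ (C * (δ / (3 * (C + 1)))) := by rw [Real.rpow_mul hN0.le]
        _ ≤ (N : ℝ) ^ (δ / 3) := by
            refine Real.rpow_le_rpow_of_exponent_le (by linarith) ?_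
            rw [mul_div_assoc', div_le_div_iff₀ (by positivity) (by norm_num)]
            nlinarith
    have h3 : (m.divisors.card : ℝ) ≤ (N : ℝ) ^ (δ / 3) := by
      calc (m.divisors.card : ℝ) ≤ 2 ^ ArithmeticFunction.cardFactors m := by
            exact_mod_cast card_divisors_le_two_pow m hm
        _ = Real.exp (Real.log 2 * ArithmeticFunction.cardFactors m) := by
            rw [Real.exp_mul, Real.exp_log (by norm_num), Real.rpow_natCast]
        _ ≤ (N : ℝ) ^ (δ / 3) := by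
            rw [hNexp, Real.exp_le_exp]
            have h4 : Real.log 2 ≤ 1 := by
              have := Real.log_two_lt_d9
              linarith
            have h5 : (0 : ℝ) ≤ ArithmeticFunction.cardFactors m := Nat.cast_nonneg _
            calc Real.log 2 * ArithmeticFunction.cardFactors m
                ≤ 1 * (δ' * ℓ) := mul_le_mul h4 hmΩ h5 (by norm_num)
              _ ≤ δ / 3 * ℓ := by
                  have : δ' ≤ δ / 3 := by nlinarith
                  nlinarith
    calc ((b * m).divisors.card : ℝ) ≤ b.divisors.card * m.divisors.card := h1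
      _ ≤ ((N : ℝ) ^ (δ / 3) * (N : ℝ) ^ (δ / 3)) * (N : ℝ) ^ (δ / 3) :=
          mul_le_mul h2 h3 (Nat.cast_nonneg _) (by positivity)
      _ = (N : ℝ) ^ δ := by
          rw [← Real.rpow_add hN0, ← Real.rpow_add hN0]
          congr 1
          ring
  · intro p
    have h1 : ((b.factorization p : ℕ) : ℝ) ≤ 2 * C * ℓ := by
      have h2 : ((2 : ℝ)) ^ b.factorization p ≤ (N : ℝ) ^ C :=
        le_trans (by exact_mod_cast val_le_log b p hb) hbC
      have h3 := Real.log_le_log (by positivity) h2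
      rw [Real.log_pow, Real.log_rpow hN0] at h3
      have h4 := Real.log_two_gt_d9
      have h5 : (0 : ℝ) ≤ b.factorization p := Nat.cast_nonneg _
      nlinarith
    have h2 : ((m.factorization p : ℕ) : ℝ) ≤ ℓ := by
      have h3 : ((m.factorization p : ℕ) : ℝ) ≤ ArithmeticFunction.cardFactors m := by
        exact_mod_cast val_le_cardFactors m p
      nlinarith
    have h3 : (((b * m).factorization p : ℕ) : ℝ) + 1 ≤ K * ℓ ^ 2 := by
      rw [Nat.factorization_mul hb hm]
      simp only [Finsupp.coe_add, Pi.add_apply]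
      push_cast
      rw [hK]
      nlinarith [mul_nonneg hC hℓ0.le]
    have h4 := pow_est r ((((b * m).factorization p : ℕ) : ℝ) + 1) K ℓ δ' (by linarith) hℓe hr
      (by positivity) h3
    refine h4.trans ?_
    rw [hNexp, Real.exp_le_exp]
    refine mul_le_mul_of_nonneg_right ?_ hℓ0.le
    linarith

end Pool.Agent.Run7.h84.MG
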