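import Pool.Agent.Run7.h84.MG.Count
import Pool.Agent.W219.SP.Kres

set_option autoImplicit false

/-!
# The decomposition
-/

open scoped Pointwise

namespace Pool.Agent.Run7.h84.MG

open Finset

theorem grp_trans {r : ℕ} (t : Fin r → ℚ) (ht : ∀ i, 0 < t i) {x y z : ℚ}
    (h1 : ∃ n : Fin r → ℤ, y = x * ∏ i, t i ^ n i) (h2 : ∃ n : Fin r → ℤ, z = y * ∏ i, t i ^ n i) :
    ∃ n : Fin r → ℤ, z = x * ∏ i, t i ^ n i := by
  obtain ⟨n, hn⟩ := h1
  obtain ⟨m, hm⟩ := h2
  refine ⟨fun i => n i + m i, ?_⟩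
  have : ∏ i, t i ^ (n i + m i) = (∏ i, t i ^ n i) * ∏ i, t i ^ m i := by
    rw [← prod_mul_distrib]
    exact prod_congr rfl fun i _ => zpow_add₀ (ht i).ne' _ _
  rw [this, hm, hn]
  ring

theorem grp_symm {r : ℕ} (t : Fin r → ℚ) (ht : ∀ i, 0 < t i) {x y : ℚ}
    (h1 : ∃ n : Fin r → ℤ, y = x * ∏ i, t i ^ n i) :
    ∃ n : Fin r → ℤ, x = y * ∏ i, t i ^ n i := by
  obtain ⟨n, hn⟩ := h1
  refine ⟨fun i => - n i, ?_⟩
  have h2 : ∏ i, t i ^ (- n i) = (∏ i, t i ^ n i)⁻¹ := by
    rw [← prod_inv_distrib]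
    exact prod_congr rfl fun i _ => zpow_neg _ _
  have h3 : ∏ i, t i ^ n i ≠ 0 := prod_ne_zero_iff.2 fun i _ => zpow_ne_zero _ (ht i).ne'
  rw [h2, hn]
  field_simp

theorem card_div_prod {ι : Type} (s : Finset ι) (g : ι → ℕ) :
    (∏ i ∈ s, g i).divisors.card ≤ ∏ i ∈ s, (g i).divisors.card := by
  classical
  induction s using Finset.induction_on with
  | empty => simp
  | insert a s ha ih =>
    rw [prod_insert ha, prod_insert ha, Nat.divisors_mul]
    exact (card_mul_le).trans (Nat.mul_le_mul_left _ ih)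

open Classical in
theorem core (k r : ℕ) (hk : 1 ≤ k) (ε : ℝ) (hε : 0 < ε) (hε1 : ε ≤ 1) (t : Fin r → ℚ)
    (ht : ∀ i, 0 < t i) (A : Finset ℤ) (c : ℤ → ℕ) (V D : ℕ) (hc : ∀ a ∈ A, c a ≠ 0)
    (hrep : ∀ a ∈ A, ∃ e : Fin r → ℤ, |(a : ℚ)| = (∏ i, t i ^ e i) * c a)
    (hV : ∀ a ∈ A, ∀ p, (c a).factorization p ≤ V) (hD : ∀ a ∈ A, (c a).divisors.card ≤ D)
    (M : ℝ) (hM : M = 4 * k / ε * Real.exp (6 * k / ε) * Real.log (2 * A.card)) :
    ∃ S ⊆ A, (∀ u : ℤ, ((Fintype.piFinset fun _ : Fin k => A \ S).filter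
        fun f => ∏ i, f i = u).card ≤ (2 * ⌊M ^ r⌋₊) ^ k * ((k * V + 1) ^ r * (D ^ k) ^ k)) ∧
      ∀ B : Finset ℤ, B.Nonempty → S.Nonempty →
        ((S.card : ℝ) ^ k * B.card) ^ (1 - ε) ≤ (r * M + 1) ^ (2 * r * k) *
          ((((Fintype.piFinset fun _ : Fin k => S).image fun f => ∑ i, f i) + B).card : ℝ) := by
  have hT : ∀ X : Finset ℤ, X ⊆ A → (∀ a ∈ X,
      (X.filter fun x : ℤ => ∃ n : Fin r → ℤ, (x : ℚ) = a * ∏ i, t i ^ n i).card ≤ ⌊M ^ r⌋₊) →
      ∀ u : ℤ, ((Fintype.piFinset fun _ : Fin k => X).filter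
        fun f => ∏ i, f i = u).card ≤ (2 * ⌊M ^ r⌋₊) ^ k * ((k * V + 1) ^ r * (D ^ k) ^ k) := by
    intro X hX hfib u
    refine fib_count k r t ht X c _ (k * V) (D ^ k) (fun a ha => hc a (hX ha))
      (fun a ha => hrep a (hX ha)) hfib ?_ ?_ u
    · intro f hf p
      rw [Nat.factorization_prod (fun i _ => hc _ (hX (hf i)))]
      simp only [Finsupp.coe_finset_sum, Finset.sum_apply]
      calc ∑ i, (c (f i)).factorization p ≤ ∑ _i : Fin k, V :=
            sum_le_sum fun i _ => hV _ (hX (hf i)) p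
        _ = k * V := by rw [sum_const, card_univ, Fintype.card_fin, smul_eq_mul]
    · intro f hf
      calc (∏ i, c (f i)).divisors.card ≤ ∏ i, (c (f i)).divisors.card := card_div_prod _ _
        _ ≤ ∏ _i : Fin k, D := prod_le_prod' fun i _ => hD _ (hX (hf i))
        _ = D ^ k := by rw [prod_const, card_univ, Fintype.card_fin]
  rcases Nat.eq_zero_or_pos r with hr0 | hr
  · subst hr0
    refine ⟨∅, empty_subset _, ?_, ?_⟩
    · intro u
      have h := hT A subset_rfl (fun a ha => by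
        have h1 : (A.filter fun x : ℤ => ∃ n : Fin 0 → ℤ, (x : ℚ) = a * ∏ i, t i ^ n i) ⊆ {a} := by
          intro x hx
          rw [mem_filter] at hx
          obtain ⟨-, n, hn⟩ := hx
          rw [mem_singleton]
          simp only [univ_eq_empty, prod_empty, mul_one] at hn
          exact_mod_cast hn
        have h2 := card_le_card h1
        rw [card_singleton] at h2
        simpa using h2) u
      rw [sdiff_empty]
      convert h
    · intro B _ h
      exact absurd h not_nonempty_empty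
  · set S : Finset ℤ := A.filter fun a => M ^ r ≤
      ((A.filter fun x : ℤ => ∃ n : Fin r → ℤ, (x : ℚ) = a * ∏ i, t i ^ n i).card : ℝ) with hS
    have hSA : S ⊆ A := filter_subset _ _
    refine ⟨S, hSA, ?_, ?_⟩
    · intro u
      have h := hT (A \ S) sdiff_subset (fun a ha => by
        rw [mem_sdiff] at ha
        have h1 : ¬ M ^ r ≤
            ((A.filter fun x : ℤ => ∃ n : Fin r → ℤ, (x : ℚ) = a * ∏ i, t i ^ n i).card : ℝ) := by
          intro h
          exact ha.2 (by rw [hS, mem_filter]; exact ⟨ha.1, h⟩)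
        push Not at h1
        refine Nat.le_floor ?_
        refine le_trans ?_ h1.le
        have h2 := card_le_card (filter_subset_filter
          (fun x : ℤ => ∃ n : Fin r → ℤ, (x : ℚ) = a * ∏ i, t i ^ n i)
          (sdiff_subset (s := A) (t := S)))
        exact_mod_cast h2) u
      convert h
    · intro B hB hSn
      have hS1 : (1 : ℝ) ≤ S.card := by exact_mod_cast hSn.card_pos
      have hSAc : (S.card : ℝ) ≤ A.card := by exact_mod_cast card_le_card hSA
      set M' : ℝ := 4 * k / ε * Real.exp (6 * k / ε) * Real.log (2 * S.card) with hM'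
      have hk0 : (0 : ℝ) < k := by exact_mod_cast hk
      have hl0 : 0 ≤ Real.log (2 * S.card) := Real.log_nonneg (by linarith)
      have hM'0 : 0 ≤ M' := by rw [hM']; positivity
      have hMM : M' ≤ M := by
        rw [hM', hM]
        exact mul_le_mul_of_nonneg_left (Real.log_le_log (by linarith) (by linarith))
          (by positivity)
      have h := W219.SP.fibre_k k r hk hr ε hε hε1 t ht S B hSn hB M' hM' (fun a ha => by
        have h1 : (A.filter fun x : ℤ => ∃ n : Fin r → ℤ, (x : ℚ) = a * ∏ i, t i ^ n i) ⊆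
            S.filter fun x : ℤ => ∃ n : Fin r → ℤ, (x : ℚ) = a * ∏ i, t i ^ n i := by
          intro x hx
          rw [mem_filter] at hx
          rw [mem_filter]
          refine ⟨?_, hx.2⟩
          rw [hS, mem_filter] at ha ⊢
          refine ⟨hx.1, ha.2.trans ?_⟩
          have h2 : (A.filter fun y : ℤ => ∃ n : Fin r → ℤ, (y : ℚ) = a * ∏ i, t i ^ n i) ⊆
              A.filter fun y : ℤ => ∃ n : Fin r → ℤ, (y : ℚ) = x * ∏ i, t i ^ n i := by
            intro y hy
            rw [mem_filter] at hy ⊢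
            exact ⟨hy.1, grp_trans t ht (grp_symm t ht hx.2) hy.2⟩
          exact_mod_cast card_le_card h2
        have h3 := (mem_filter.1 (hS ▸ ha)).2
        calc M' ^ r ≤ M ^ r := pow_le_pow_left₀ hM'0 hMM r
          _ ≤ _ := h3
          _ ≤ _ := by exact_mod_cast card_le_card h1)
      refine h.trans ?_
      refine mul_le_mul_of_nonneg_right ?_ (Nat.cast_nonneg _)
      exact pow_le_pow_left₀ (by positivity)
        (by linarith [mul_le_mul_of_nonneg_left hMM (Nat.cast_nonneg (α := ℝ) r)]) _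

end Pool.Agent.Run7.h84.MG
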