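import Pool.Agent.Run7.h84.MG.Core
import Pool.Agent.H505R2.DivB

set_option autoImplicit false

/-!
# The estimates
-/

open scoped Pointwise

namespace Pool.Agent.Run7.h84.MG

open Finset

/-- `a` is `± g n` with `g` in the multiplicative group generated by `t 0, …, t (r - 1)` and `n` a
natural number with at most `N ^ δ` divisors and with `(v + 1) ^ r ≤ N ^ δ` for all exponents `v` of
its prime factorization. -/
def Thin {r : ℕ} (t : Fin r → ℚ) (N δ : ℝ) (a : ℤ) : Prop :=
  ∃ (e : Fin r → ℤ) (n : ℕ), n ≠ 0 ∧ |(a : ℚ)| = (∏ i, t i ^ e i) * n ∧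
    (n.divisors.card : ℝ) ≤ N ^ δ ∧ ∀ p, ((n.factorization p : ℝ) + 1) ^ r ≤ N ^ δ

theorem log16 : Real.exp 1 ≤ Real.log 16 := by
  have h1 : Real.log 16 = 4 * Real.log 2 := by
    rw [show (16 : ℝ) = 2 ^ 4 by norm_num, Real.log_pow]
    norm_num
  have h2 := Real.log_two_gt_d9
  have h3 := Real.exp_one_lt_d9
  rw [h1]
  linarith

theorem pow_est (r : ℕ) (x K ℓ δ : ℝ) (hK : 1 ≤ K) (hℓ : Real.exp 1 ≤ ℓ)
    (hr : r * Real.log ℓ ≤ δ * ℓ) (hx0 : 0 < x) (hx : x ≤ K * ℓ ^ 2) :
    x ^ r ≤ Real.exp ((Real.log K + 2) * δ * ℓ) := by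
  have hℓ0 : 0 < ℓ := (Real.exp_pos 1).trans_le hℓ
  have hL : 1 ≤ Real.log ℓ := by
    rw [Real.le_log_iff_exp_le hℓ0]
    exact hℓ
  have hlK : 0 ≤ Real.log K := Real.log_nonneg hK
  have h1 : Real.log x ≤ (Real.log K + 2) * Real.log ℓ := by
    calc Real.log x ≤ Real.log (K * ℓ ^ 2) := Real.log_le_log hx0 hx
      _ = Real.log K + 2 * Real.log ℓ := by
          rw [Real.log_mul (by linarith) (by positivity), Real.log_pow]
          norm_num
      _ ≤ (Real.log K + 2) * Real.log ℓ := by nlinarith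
  have h2 : x ^ r = Real.exp (r * Real.log x) := by
    rw [mul_comm, Real.exp_mul, Real.exp_log hx0, Real.rpow_natCast]
  rw [h2, Real.exp_le_exp]
  calc r * Real.log x ≤ r * ((Real.log K + 2) * Real.log ℓ) :=
        mul_le_mul_of_nonneg_left h1 (Nat.cast_nonneg r)
    _ = (Real.log K + 2) * (r * Real.log ℓ) := by ring
    _ ≤ (Real.log K + 2) * (δ * ℓ) := mul_le_mul_of_nonneg_left hr (by linarith)
    _ = (Real.log K + 2) * δ * ℓ := by ring

theorem maxV (r : ℕ) (A : Finset ℤ) (c : ℤ → ℕ) (Y : ℝ) (hY : 1 ≤ Y)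
    (h : ∀ a ∈ A, ∀ p, (((c a).factorization p : ℝ) + 1) ^ r ≤ Y) :
    ∃ V : ℕ, (∀ a ∈ A, ∀ p, (c a).factorization p ≤ V) ∧ ((V : ℝ) + 1) ^ r ≤ Y := by
  classical
  set W : Finset ℕ := insert 0 (A.biUnion fun a => (c a).primeFactors.image (c a).factorization)
    with hW
  obtain ⟨V, hV, hmax⟩ := W.exists_max_image id ⟨0, by rw [hW]; exact mem_insert_self _ _⟩
  refine ⟨V, fun a ha p => ?_, ?_⟩
  · by_cases hp : p ∈ (c a).primeFactors
    · exact hmax _ (by
        rw [hW]
        exact mem_insert_of_mem (mem_biUnion.2 ⟨a, ha, mem_image_of_mem _ hp⟩))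
    · rw [← Nat.support_factorization, Finsupp.notMem_support_iff] at hp
      rw [hp]
      exact Nat.zero_le _
  · rw [hW, mem_insert, mem_biUnion] at hV
    rcases hV with rfl | ⟨a, ha, hV⟩
    · simpa using hY
    · obtain ⟨p, -, rfl⟩ := mem_image.1 hV
      exact h a ha p

/-- the decomposition, for large `N` -/
theorem part1 (k : ℕ) (hk : 1 ≤ k) (ε : ℝ) (hε : 0 < ε) :
    ∃ δ₀ : ℝ, 0 < δ₀ ∧ ∀ δ : ℝ, 0 < δ → δ ≤ δ₀ → ∀ (N r : ℕ) (t : Fin r → ℚ), 16 ≤ N →
      (∀ i, 0 < t i) → (r : ℝ) * Real.log (Real.log N) ≤ δ * Real.log N →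
      ∀ A : Finset ℤ, A.card ≤ N → (∀ a ∈ A, Thin t N δ a) →
      ∃ S ⊆ A, (∀ u : ℤ, (((Fintype.piFinset fun _ : Fin k => A \ S).filter
          fun f => ∏ i, f i = u).card : ℝ) ≤ 2 ^ k * (N : ℝ) ^ ε) ∧
        ∀ B : Finset ℤ, B.Nonempty → (S.card : ℝ) ^ k * (B.card : ℝ) ^ (1 - ε) ≤ (N : ℝ) ^ ε *
          ((((Fintype.piFinset fun _ : Fin k => S).image fun f => ∑ i, f i) + B).card : ℝ) := by
  classical
  have hk0 : (0 : ℝ) < k := by exact_mod_cast hk
  have hk1 : (1 : ℝ) ≤ k := by exact_mod_cast hk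
  set ε' : ℝ := min 1 (ε / (4 * k)) with hε'
  have hε'0 : 0 < ε' := lt_min one_pos (by positivity)
  have hε'1 : ε' ≤ 1 := min_le_left _ _
  have hε'2 : k * ε' ≤ ε / 4 := by
    have : ε' ≤ ε / (4 * k) := min_le_right _ _
    calc k * ε' ≤ k * (ε / (4 * k)) := mul_le_mul_of_nonneg_left this hk0.le
      _ = ε / 4 := by field_simp
  have hε'3 : ε' ≤ ε := by nlinarith
  set K₀ : ℝ := 4 * k / ε' * Real.exp (6 * k / ε') with hK₀
  have hK₀1 : 1 ≤ K₀ := by
    have h1 : 1 ≤ 4 * k / ε' := by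
      rw [one_le_div hε'0]
      linarith
    have h2 : 1 ≤ Real.exp (6 * k / ε') := Real.one_le_exp (by positivity)
    rw [hK₀]
    nlinarith
  set G : ℝ := Real.log (4 * K₀) + 2 with hG
  have hG2 : 2 ≤ G := by
    have : 0 ≤ Real.log (4 * K₀) := Real.log_nonneg (by linarith)
    linarith
  have hlk : 0 ≤ Real.log k := Real.log_nonneg hk1
  set H : ℝ := 2 * k * G + Real.log k + 1 + k ^ 2 with hH
  have hH1 : 1 ≤ H := by
    have : 0 ≤ 2 * k * G := by positivity
    have : 0 ≤ (k : ℝ) ^ 2 := by positivity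
    linarith
  refine ⟨min 1 (ε / (4 * H)), lt_min one_pos (by positivity), ?_⟩
  intro δ hδ0 hδ N r t hN ht hr A hA hthin
  have hδ1 : δ ≤ 1 := hδ.trans (min_le_left _ _)
  have hδH : H * δ ≤ ε / 4 := by
    have : δ ≤ ε / (4 * H) := hδ.trans (min_le_right _ _)
    calc H * δ ≤ H * (ε / (4 * H)) := mul_le_mul_of_nonneg_left this (by linarith)
      _ = ε / 4 := by field_simp
  have hN16 : (16 : ℝ) ≤ N := by exact_mod_cast hN
  have hN0 : (0 : ℝ) < N := by linarith
  set ℓ : ℝ := Real.log N with hℓ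
  have hℓe : Real.exp 1 ≤ ℓ := log16.trans (Real.log_le_log (by norm_num) hN16)
  have hℓ2 : 2 ≤ ℓ := by
    have := Real.exp_one_gt_d9
    linarith
  have hℓ0 : 0 < ℓ := by linarith
  have hL : 1 ≤ Real.log ℓ := by
    rw [Real.le_log_iff_exp_le hℓ0]
    exact hℓe
  have hNexp : ∀ x : ℝ, (N : ℝ) ^ x = Real.exp (x * ℓ) := by
    intro x
    rw [Real.rpow_def_of_pos hN0, mul_comm]
  have hrδ : (r : ℝ) ≤ δ * ℓ := by
    have : (r : ℝ) * 1 ≤ r * Real.log ℓ := mul_le_mul_of_nonneg_left hL (Nat.cast_nonneg r)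
    linarith
  have hrℓ : (r : ℝ) ≤ ℓ := by nlinarith
  choose! e c hc0 hrep hdiv hval using hthin
  have hNδ : 1 ≤ (N : ℝ) ^ δ := Real.one_le_rpow (by linarith) hδ0.le
  obtain ⟨V, hV, hVr⟩ := maxV r A c ((N : ℝ) ^ δ) hNδ hval
  set D : ℕ := ⌊(N : ℝ) ^ δ⌋₊ with hD
  set M : ℝ := 4 * k / ε' * Real.exp (6 * k / ε') * Real.log (2 * A.card) with hM
  obtain ⟨S, hSA, hcount, hsum⟩ := core k r hk ε' hε'0 hε'1 t ht A c V D hc0
    (fun a ha => ⟨e a, hrep a ha⟩) hV (fun a ha => Nat.le_floor (hdiv a ha)) M hM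
  refine ⟨S, hSA, ?_, ?_⟩
  · intro u
    rcases Finset.eq_empty_or_nonempty A with h0 | hA0
    · have h1 := hcount u
      have h2 : ((Fintype.piFinset fun _ : Fin k => A \ S).filter
          fun f => ∏ i, f i = u).card ≤ 1 := by
        subst h0
        refine (card_le_card (filter_subset _ _)).trans ?_
        rw [Fintype.card_piFinset]
        simp only [empty_sdiff, card_empty, prod_const, card_univ, Fintype.card_fin]
        rw [zero_pow (by omega)]
        exact Nat.zero_le _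
      have h3 : (1 : ℝ) ≤ 2 ^ k * (N : ℝ) ^ ε := by
        have h4 : (1 : ℝ) ≤ 2 ^ k := one_le_pow₀ (by norm_num)
        have h5 : (1 : ℝ) ≤ (N : ℝ) ^ ε := Real.one_le_rpow (by linarith) hε.le
        nlinarith
      refine le_trans ?_ h3
      exact_mod_cast h2
    · have hA1 : (1 : ℝ) ≤ A.card := by exact_mod_cast hA0.card_pos
      have hlog0 : 0 < Real.log (2 * A.card) := Real.log_pos (by linarith)
      have hlog : Real.log (2 * A.card) ≤ 2 * ℓ := by
        have h1 : (A.card : ℝ) ≤ N := by exact_mod_cast hA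
        calc Real.log (2 * A.card) ≤ Real.log (N * N) :=
              Real.log_le_log (by positivity) (by nlinarith)
          _ = 2 * ℓ := by rw [Real.log_mul hN0.ne' hN0.ne', ← hℓ]; ring
      have hM0 : 0 < M := by rw [hM, ← hK₀]; positivity
      have hMK : M ≤ 2 * K₀ * ℓ := by
        rw [hM, ← hK₀]
        nlinarith
      have hMr : M ^ r ≤ Real.exp (G * δ * ℓ) := by
        refine pow_est r M (4 * K₀) ℓ δ (by linarith) hℓe hr hM0 ?_
        nlinarith [mul_pos (by linarith : 0 < K₀) hℓ0]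
      have hF : (⌊M ^ r⌋₊ : ℝ) ≤ Real.exp (G * δ * ℓ) :=
        (Nat.floor_le (by positivity)).trans hMr
      have hVk : ((k : ℝ) * V + 1) ^ r ≤ Real.exp ((Real.log k + 1) * δ * ℓ) := by
        calc ((k : ℝ) * V + 1) ^ r ≤ (k * ((V : ℝ) + 1)) ^ r := by
              refine pow_le_pow_left₀ (by positivity) ?_ r
              nlinarith
          _ = (k : ℝ) ^ r * ((V : ℝ) + 1) ^ r := mul_pow _ _ _
          _ ≤ Real.exp (Real.log k * (δ * ℓ)) * Real.exp (δ * ℓ) := by
              refine mul_le_mul ?_ ?_ (by positivity) (Real.exp_pos _).le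
              · have h2 : (k : ℝ) ^ r = Real.exp (Real.log k * r) := by
                  rw [Real.exp_mul, Real.exp_log hk0, Real.rpow_natCast]
                rw [h2, Real.exp_le_exp]
                exact mul_le_mul_of_nonneg_left hrδ hlk
              · rw [← hNexp]
                exact hVr
          _ = Real.exp ((Real.log k + 1) * δ * ℓ) := by rw [← Real.exp_add]; congr 1; ring
      have hDk : (((D : ℝ) ^ k) ^ k) ≤ Real.exp ((k : ℝ) ^ 2 * δ * ℓ) := by
        calc ((D : ℝ) ^ k) ^ k = (D : ℝ) ^ (k * k) := (pow_mul _ _ _).symm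
          _ ≤ (Real.exp (δ * ℓ)) ^ (k * k) := by
              refine pow_le_pow_left₀ (Nat.cast_nonneg _) ?_ _
              rw [← hNexp]
              exact Nat.floor_le (by positivity)
          _ = Real.exp ((k : ℝ) ^ 2 * δ * ℓ) := by
              rw [← Real.exp_nat_mul]
              congr 1
              push_cast
              ring
      have h := hcount u
      calc (((Fintype.piFinset fun _ : Fin k => A \ S).filter
            fun f => ∏ i, f i = u).card : ℝ)
          ≤ (2 * (⌊M ^ r⌋₊ : ℝ)) ^ k * (((k : ℝ) * V + 1) ^ r * ((D : ℝ) ^ k) ^ k) := by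
            exact_mod_cast h
        _ ≤ (2 * Real.exp (G * δ * ℓ)) ^ k * (Real.exp ((Real.log k + 1) * δ * ℓ) *
              Real.exp ((k : ℝ) ^ 2 * δ * ℓ)) := by
            refine mul_le_mul ?_ ?_ (by positivity) (by positivity)
            · exact pow_le_pow_left₀ (by positivity) (by linarith) k
            · exact mul_le_mul hVk hDk (by positivity) (Real.exp_pos _).le
        _ = 2 ^ k * Real.exp ((k * G + Real.log k + 1 + k ^ 2) * δ * ℓ) := by
            rw [mul_pow, ← Real.exp_nat_mul, ← Real.exp_add, mul_assoc, ← Real.exp_add]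
            congr 2
            ring
        _ ≤ 2 ^ k * (N : ℝ) ^ ε := by
            rw [hNexp]
            refine mul_le_mul_of_nonneg_left (Real.exp_le_exp.2 ?_) (by positivity)
            refine mul_le_mul_of_nonneg_right ?_ hℓ0.le
            have h1 : (k * G + Real.log k + 1 + k ^ 2) ≤ H := by
              rw [hH]
              nlinarith
            calc (k * G + Real.log k + 1 + k ^ 2) * δ ≤ H * δ :=
                  mul_le_mul_of_nonneg_right h1 hδ0.le
              _ ≤ ε := by linarith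
  · intro B hB
    rcases Finset.eq_empty_or_nonempty S with h0 | hS0
    · rw [h0]
      simp only [card_empty, Nat.cast_zero]
      rw [zero_pow (by omega), zero_mul]
      positivity
    · have hA0 : A.Nonempty := hS0.mono hSA
      have hA1 : (1 : ℝ) ≤ A.card := by exact_mod_cast hA0.card_pos
      have hAN : (A.card : ℝ) ≤ N := by exact_mod_cast hA
      have hSN : (S.card : ℝ) ≤ N := by
        have : (S.card : ℝ) ≤ A.card := by exact_mod_cast card_le_card hSA
        linarith
      have hS1 : (1 : ℝ) ≤ S.card := by exact_mod_cast hS0.card_pos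
      have hB1 : (1 : ℝ) ≤ B.card := by exact_mod_cast hB.card_pos
      have hlog0 : 0 < Real.log (2 * A.card) := Real.log_pos (by linarith)
      have hlog : Real.log (2 * A.card) ≤ 2 * ℓ := by
        calc Real.log (2 * A.card) ≤ Real.log (N * N) :=
              Real.log_le_log (by positivity) (by nlinarith)
          _ = 2 * ℓ := by rw [Real.log_mul hN0.ne' hN0.ne', ← hℓ]; ring
      have hM0 : 0 < M := by rw [hM, ← hK₀]; positivity
      have hMK : M ≤ 2 * K₀ * ℓ := by
        rw [hM, ← hK₀]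
        nlinarith
      have hx : r * M + 1 ≤ 4 * K₀ * ℓ ^ 2 := by
        have h1 : r * M ≤ ℓ * (2 * K₀ * ℓ) := mul_le_mul hrℓ hMK hM0.le hℓ0.le
        nlinarith [mul_pos (by linarith : 0 < K₀) hℓ0, sq_nonneg ℓ]
      have h1 := pow_est r (r * M + 1) (4 * K₀) ℓ δ (by linarith) hℓe hr (by positivity) hx
      have h2 : (r * M + 1) ^ (2 * r * k) ≤ Real.exp (2 * k * G * δ * ℓ) := by
        calc (r * M + 1) ^ (2 * r * k) = ((r * M + 1) ^ r) ^ (2 * k) := by
              rw [← pow_mul]; congr 1; ring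
          _ ≤ (Real.exp (G * δ * ℓ)) ^ (2 * k) := pow_le_pow_left₀ (by positivity) h1 _
          _ = Real.exp (2 * k * G * δ * ℓ) := by
              rw [← Real.exp_nat_mul]
              congr 1
              push_cast
              ring
      have h3 : (r * M + 1) ^ (2 * r * k) ≤ (N : ℝ) ^ (ε / 4) := by
        refine h2.trans ?_
        rw [hNexp, Real.exp_le_exp]
        refine mul_le_mul_of_nonneg_right ?_ hℓ0.le
        have : 2 * k * G ≤ H := by
          rw [hH]
          nlinarith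
        calc 2 * k * G * δ ≤ H * δ := mul_le_mul_of_nonneg_right this hδ0.le
          _ ≤ ε / 4 := hδH
      have h4 := hsum B hB hS0
      have hSk : (0 : ℝ) < (S.card : ℝ) ^ k := pow_pos (by linarith) k
      have hk' : (S.card : ℝ) ^ (k * ε') * ((S.card : ℝ) ^ k) ^ (1 - ε') = (S.card : ℝ) ^ k := by
        rw [Real.rpow_mul (by linarith), Real.rpow_natCast, ← Real.rpow_add hSk]
        rw [show ε' + (1 - ε') = 1 by ring, Real.rpow_one]
      have h5 : (S.card : ℝ) ^ (k * ε') ≤ (N : ℝ) ^ (ε / 4) :=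
        (Real.rpow_le_rpow (by linarith) hSN (by positivity)).trans
          (Real.rpow_le_rpow_of_exponent_le (by linarith) hε'2)
      have h6 : (B.card : ℝ) ^ (1 - ε) ≤ (B.card : ℝ) ^ (1 - ε') :=
        Real.rpow_le_rpow_of_exponent_le hB1 (by linarith)
      have h7 : ((S.card : ℝ) ^ k * B.card) ^ (1 - ε') =
          ((S.card : ℝ) ^ k) ^ (1 - ε') * (B.card : ℝ) ^ (1 - ε') :=
        Real.mul_rpow hSk.le (Nat.cast_nonneg _)
      calc (S.card : ℝ) ^ k * (B.card : ℝ) ^ (1 - ε)
          = (S.card : ℝ) ^ (k * ε') * (((S.card : ℝ) ^ k) ^ (1 - ε') * (B.card : ℝ) ^ (1 - ε)) := by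
            rw [← mul_assoc, hk']
        _ ≤ (N : ℝ) ^ (ε / 4) * (((S.card : ℝ) ^ k) ^ (1 - ε') * (B.card : ℝ) ^ (1 - ε')) := by
            refine mul_le_mul h5 ?_ (by positivity) (by positivity)
            exact mul_le_mul_of_nonneg_left h6 (by positivity)
        _ = (N : ℝ) ^ (ε / 4) * ((S.card : ℝ) ^ k * B.card) ^ (1 - ε') := by rw [h7]
        _ ≤ (N : ℝ) ^ (ε / 4) * ((N : ℝ) ^ (ε / 4) *
            ((((Fintype.piFinset fun _ : Fin k => S).image fun f => ∑ i, f i) + B).card : ℝ)) := by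
            refine mul_le_mul_of_nonneg_left (h4.trans ?_) (by positivity)
            exact mul_le_mul_of_nonneg_right h3 (Nat.cast_nonneg _)
        _ = (N : ℝ) ^ (ε / 2) *
            ((((Fintype.piFinset fun _ : Fin k => S).image fun f => ∑ i, f i) + B).card : ℝ) := by
            rw [← mul_assoc, ← Real.rpow_add hN0]
            congr 2
            ring
        _ ≤ (N : ℝ) ^ ε *
            ((((Fintype.piFinset fun _ : Fin k => S).image fun f => ∑ i, f i) + B).card : ℝ) := by
            refine mul_le_mul_of_nonneg_right ?_ (Nat.cast_nonneg _)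
            exact Real.rpow_le_rpow_of_exponent_le (by linarith) (by linarith)

end Pool.Agent.Run7.h84.MG
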