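import Pool.Agent.Run7.h84.MG.Lat

set_option autoImplicit false

/-!
# Few products with a given value
-/

namespace Pool.Agent.Run7.h84.MG

open Finset

theorem grp_div {r : ℕ} (t : Fin r → ℚ) (ht : ∀ i, 0 < t i) (e e' : Fin r → ℤ) (x a d : ℚ)
    (hx : x = (∏ i, t i ^ e i) * d) (ha : a = (∏ i, t i ^ e' i) * d) :
    x = a * ∏ i, t i ^ (e i - e' i) := by
  have h0 : ∀ i, t i ≠ 0 := fun i => (ht i).ne'
  have h1 : ∏ i, t i ^ (e i - e' i) = (∏ i, t i ^ e i) / ∏ i, t i ^ e' i := by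
    rw [← prod_div_distrib]
    exact prod_congr rfl fun i _ => zpow_sub₀ (h0 i) _ _
  have h2 : ∏ i, t i ^ e' i ≠ 0 := prod_ne_zero_iff.2 fun i _ => zpow_ne_zero _ (h0 i)
  rw [h1, hx, ha]
  field_simp

theorem zpow_sum_eq {ι : Type} [Fintype ι] (x : ℚ) (hx : x ≠ 0) (e : ι → ℤ) :
    x ^ (∑ i, e i) = ∏ i, x ^ e i := by
  classical
  have : ∀ s : Finset ι, x ^ (∑ i ∈ s, e i) = ∏ i ∈ s, x ^ e i := by
    intro s
    induction s using Finset.induction_on with
    | empty => simp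
    | insert a s ha ih => rw [sum_insert ha, prod_insert ha, zpow_add₀ hx, ih]
  exact this univ

open Classical in
theorem fib_one (r : ℕ) (t : Fin r → ℚ) (ht : ∀ i, 0 < t i) (X : Finset ℤ) (c : ℤ → ℕ) (F : ℕ)
    (hrep : ∀ a ∈ X, ∃ e : Fin r → ℤ, |(a : ℚ)| = (∏ i, t i ^ e i) * c a)
    (hfib : ∀ a ∈ X,
      (X.filter fun x : ℤ => ∃ n : Fin r → ℤ, (x : ℚ) = a * ∏ i, t i ^ n i).card ≤ F) (d : ℕ) :
    (X.filter fun x => c x = d).card ≤ 2 * F := by
  have key : ∀ (P : ℤ → Prop) [DecidablePred P], (∀ x a : ℤ, P x → P a → ∀ q : ℚ, |(x : ℚ)| = |(a : ℚ)| * q →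
      (x : ℚ) = a * q) → ((X.filter fun x => c x = d).filter P).card ≤ F := by
    intro P _ hP
    rcases Finset.eq_empty_or_nonempty ((X.filter fun x => c x = d).filter P) with h | ⟨a, ha⟩
    · rw [h]
      simp
    · rw [mem_filter, mem_filter] at ha
      obtain ⟨⟨haX, had⟩, haP⟩ := ha
      refine (card_le_card ?_).trans (hfib a haX)
      intro x hx
      rw [mem_filter, mem_filter] at hx
      obtain ⟨⟨hxX, hxd⟩, hxP⟩ := hx
      obtain ⟨e, he⟩ := hrep x hxX
      obtain ⟨e', he'⟩ := hrep a haX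
      rw [hxd] at he
      rw [had] at he'
      rw [mem_filter]
      exact ⟨hxX, fun i => e i - e' i, hP x a hxP haP _ (grp_div t ht e e' _ _ _ he he')⟩
  rw [← card_filter_add_card_filter_not (s := X.filter fun x => c x = d) (fun x => 0 ≤ x)]
  have h1 := key (fun x => 0 ≤ x) (fun x a hx ha q h => by
    have hx' : (0 : ℚ) ≤ x := by exact_mod_cast hx
    have ha' : (0 : ℚ) ≤ a := by exact_mod_cast ha
    rwa [abs_of_nonneg hx', abs_of_nonneg ha'] at h)
  have h2 := key (fun x => ¬ 0 ≤ x) (fun x a hx ha q h => by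
    have hx' : (x : ℚ) < 0 := by exact_mod_cast not_le.1 hx
    have ha' : (a : ℚ) < 0 := by exact_mod_cast not_le.1 ha
    rw [abs_of_neg hx', abs_of_neg ha'] at h
    linarith)
  omega

open Classical in
theorem fib_count (k r : ℕ) (t : Fin r → ℚ) (ht : ∀ i, 0 < t i) (X : Finset ℤ) (c : ℤ → ℕ)
    (F L T : ℕ) (hc : ∀ a ∈ X, c a ≠ 0)
    (hrep : ∀ a ∈ X, ∃ e : Fin r → ℤ, |(a : ℚ)| = (∏ i, t i ^ e i) * c a)
    (hfib : ∀ a ∈ X,
      (X.filter fun x : ℤ => ∃ n : Fin r → ℤ, (x : ℚ) = a * ∏ i, t i ^ n i).card ≤ F)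
    (hL : ∀ f : Fin k → ℤ, (∀ i, f i ∈ X) → ∀ p, (∏ i, c (f i)).factorization p ≤ L)
    (hT : ∀ f : Fin k → ℤ, (∀ i, f i ∈ X) → (∏ i, c (f i)).divisors.card ≤ T) (u : ℤ) :
    ((Fintype.piFinset fun _ : Fin k => X).filter fun f => ∏ i, f i = u).card ≤
      (2 * F) ^ k * ((L + 1) ^ r * T ^ k) := by
  have ht0 : ∀ i, t i ≠ 0 := fun i => (ht i).ne'
  set W := (Fintype.piFinset fun _ : Fin k => X).filter fun f => ∏ i, f i = u with hW
  set φ : (Fin k → ℤ) → (Fin k → ℕ) := fun f i => c (f i) with hφ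
  set ψ : (Fin k → ℕ) → ℕ := fun g => ∏ i, g i with hψ
  have h1 : W.card ≤ (2 * F) ^ k * (W.image φ).card := by
    refine card_le_mul_card_image W _ fun g _ => ?_
    calc (W.filter fun f => φ f = g).card
        ≤ (Fintype.piFinset fun i => X.filter fun x => c x = g i).card := by
          refine card_le_card fun f hf => ?_
          rw [mem_filter, hW, mem_filter, Fintype.mem_piFinset] at hf
          rw [Fintype.mem_piFinset]
          intro i
          rw [mem_filter]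
          exact ⟨hf.1.1 i, congrFun hf.2 i⟩
      _ = ∏ i, (X.filter fun x => c x = g i).card := Fintype.card_piFinset _
      _ ≤ ∏ _i : Fin k, 2 * F := prod_le_prod' fun i _ => fib_one r t ht X c F hrep hfib (g i)
      _ = (2 * F) ^ k := by rw [prod_const, card_univ, Fintype.card_fin]
  have h2 : (W.image φ).card ≤ T ^ k * ((W.image φ).image ψ).card := by
    refine card_le_mul_card_image _ _ fun n hn => ?_
    obtain ⟨g, hg, rfl⟩ := mem_image.1 hn
    obtain ⟨f, hf, rfl⟩ := mem_image.1 hg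
    rw [hW, mem_filter, Fintype.mem_piFinset] at hf
    have hn0 : ψ (φ f) ≠ 0 := prod_ne_zero_iff.2 fun i _ => hc _ (hf.1 i)
    calc ((W.image φ).filter fun g => ψ g = ψ (φ f)).card
        ≤ (Fintype.piFinset fun _ : Fin k => (ψ (φ f)).divisors).card := by
          refine card_le_card fun g hg => ?_
          rw [mem_filter] at hg
          rw [Fintype.mem_piFinset]
          intro i
          rw [Nat.mem_divisors]
          refine ⟨?_, hn0⟩
          rw [← hg.2]
          exact dvd_prod_of_mem g (mem_univ i)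
      _ = (ψ (φ f)).divisors.card ^ k := by
          rw [Fintype.card_piFinset, prod_const, card_univ, Fintype.card_fin]
      _ ≤ T ^ k := Nat.pow_le_pow_left (hT f hf.1) k
  have h3 : ((W.image φ).image ψ).card ≤ (L + 1) ^ r := by
    rcases Finset.eq_empty_or_nonempty W with h | ⟨f0, hf0⟩
    · rw [h]
      simp
    have hX0 : ∀ x ∈ X, x ≠ 0 := by
      intro x hx h0
      obtain ⟨e, he⟩ := hrep x hx
      have : (∏ i, t i ^ e i) * (c x : ℚ) ≠ 0 :=
        mul_ne_zero (prod_ne_zero_iff.2 fun i _ => zpow_ne_zero _ (ht0 i))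
          (Nat.cast_ne_zero.2 (hc x hx))
      apply this
      subst h0
      simpa using he.symm
    have hu : (|(u : ℚ)|) ≠ 0 := by
      rw [hW, mem_filter, Fintype.mem_piFinset] at hf0
      rw [← hf0.2]
      simp only [ne_eq, abs_eq_zero, Int.cast_eq_zero]
      exact prod_ne_zero_iff.2 fun i _ => hX0 _ (hf0.1 i)
    refine count_coset r t ht0 (|(u : ℚ)|) hu L _ fun n hn => ?_
    obtain ⟨g, hg, rfl⟩ := mem_image.1 hn
    obtain ⟨f, hf, rfl⟩ := mem_image.1 hg
    rw [hW, mem_filter, Fintype.mem_piFinset] at hf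
    refine ⟨prod_ne_zero_iff.2 fun i _ => hc _ (hf.1 i), ?_, hL f hf.1⟩
    choose e he using fun i => hrep (f i) (hf.1 i)
    refine ⟨fun j => -∑ i, e i j, ?_⟩
    have h4 : |(u : ℚ)| = (∏ j, t j ^ (∑ i, e i j)) * (ψ (φ f) : ℕ) := by
      rw [← hf.2]
      push_cast
      rw [abs_prod, prod_congr rfl fun i _ => he i, prod_mul_distrib, prod_comm]
      congr 1
      · refine prod_congr rfl fun j _ => ?_
        exact (zpow_sum_eq (t j) (ht0 j) (fun i => e i j)).symm
      · simp [hψ, hφ]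
    rw [h4]
    have h5 : ∏ j, t j ^ (-∑ i, e i j) = (∏ j, t j ^ (∑ i, e i j))⁻¹ := by
      rw [← prod_inv_distrib]
      exact prod_congr rfl fun j _ => zpow_neg _ _
    have h6 : ∏ j, t j ^ (∑ i, e i j) ≠ 0 := prod_ne_zero_iff.2 fun i _ => zpow_ne_zero _ (ht0 i)
    rw [h5]
    field_simp
  calc W.card ≤ (2 * F) ^ k * (W.image φ).card := h1
    _ ≤ (2 * F) ^ k * (T ^ k * ((W.image φ).image ψ).card) := Nat.mul_le_mul_left _ h2
    _ ≤ (2 * F) ^ k * (T ^ k * (L + 1) ^ r) :=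
        Nat.mul_le_mul_left _ (Nat.mul_le_mul_left _ h3)
    _ = (2 * F) ^ k * ((L + 1) ^ r * T ^ k) := by rw [Nat.mul_comm (T ^ k)]

end Pool.Agent.Run7.h84.MG
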