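import Mathlib

set_option autoImplicit false

/-!
# Integers with small valuations in a coset of a multiplicative group of rank `r`
-/

namespace Pool.Agent.Run7.h84.MG

open Finset

/-- few points with small coordinates in a coset of a subspace of small dimension -/
theorem lat {ι : Type} (L : ℕ) : ∀ (d : ℕ) (V : Submodule ℚ (ι → ℚ)), FiniteDimensional ℚ V →
    Module.finrank ℚ V ≤ d → ∀ S : Finset (ι → ℕ),
    (∀ s ∈ S, ∀ s' ∈ S, (fun i => (s i : ℚ) - s' i) ∈ V) → (∀ s ∈ S, ∀ i, s i ≤ L) →
    S.card ≤ (L + 1) ^ d := by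
  classical
  have hbot : ∀ S : Finset (ι → ℕ),
      (∀ s ∈ S, ∀ s' ∈ S, (fun i => (s i : ℚ) - s' i) ∈ (⊥ : Submodule ℚ (ι → ℚ))) →
      S.card ≤ 1 := by
    intro S hS
    rw [Finset.card_le_one]
    intro s hs s' hs'
    have h1 := hS s hs s' hs'
    rw [Submodule.mem_bot] at h1
    funext i
    have h2 := congrFun h1 i
    simp only [Pi.zero_apply] at h2
    have : (s i : ℚ) = s' i := by linarith
    exact_mod_cast this
  intro d
  induction d with
  | zero =>
    intro V hfd hV S hS hL
    have h0 : V = ⊥ := by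
      have : Module.finrank ℚ V = 0 := by omega
      exact Submodule.finrank_eq_zero.1 this
    subst h0
    simpa using hbot S hS
  | succ d ih =>
    intro V hfd hV S hS hL
    by_cases hb : V = ⊥
    · subst hb
      exact (hbot S hS).trans (Nat.one_le_pow _ _ (by omega))
    · obtain ⟨v, hv, hv0⟩ := Submodule.exists_mem_ne_zero_of_ne_bot hb
      obtain ⟨q, hq⟩ : ∃ q, v q ≠ 0 := by
        by_contra h
        push Not at h
        exact hv0 (funext h)
      set V' : Submodule ℚ (ι → ℚ) :=
        V ⊓ LinearMap.ker (LinearMap.proj q : (ι → ℚ) →ₗ[ℚ] ℚ) with hV'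
      have hlt : V' < V := by
        refine lt_of_le_of_ne inf_le_left fun h => ?_
        have h1 : v ∈ V' := h ▸ hv
        exact hq h1.2
      have hfr : Module.finrank ℚ V' < Module.finrank ℚ V :=
        Submodule.finrank_lt_finrank_of_lt hlt
      have hfd' : FiniteDimensional ℚ V' := Submodule.finiteDimensional_of_le inf_le_left
      have hmaps : ∀ s ∈ S, s q ∈ range (L + 1) := fun s hs =>
        mem_range.2 (Nat.lt_succ_of_le (hL s hs q))
      rw [Finset.card_eq_sum_card_fiberwise hmaps]
      calc ∑ j ∈ range (L + 1), (S.filter (fun s => s q = j)).card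
          ≤ ∑ _j ∈ range (L + 1), (L + 1) ^ d := by
            refine sum_le_sum fun j _ => ih V' hfd' (by omega) _ ?_ ?_
            · intro s hs s' hs'
              rw [mem_filter] at hs hs'
              refine ⟨hS s hs.1 s' hs'.1, ?_⟩
              simp [hs.2, hs'.2]
            · intro s hs
              exact hL s (mem_filter.1 hs).1
        _ = (L + 1) ^ (d + 1) := by
            rw [sum_const, card_range, smul_eq_mul, pow_succ]
            ring

/-- the valuations as rational numbers -/
noncomputable def val (x : ℚ) : Nat.Primes → ℚ := fun q => ((padicValRat (q : ℕ) x : ℤ) : ℚ)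

theorem val_mul {x y : ℚ} (hx : x ≠ 0) (hy : y ≠ 0) : val (x * y) = val x + val y := by
  funext q
  have : Fact (q : ℕ).Prime := ⟨q.2⟩
  unfold val
  rw [padicValRat.mul hx hy]
  simp

theorem val_one : val 1 = 0 := by
  funext q
  unfold val
  simp

theorem val_zpow (x : ℚ) (n : ℤ) : val (x ^ n) = (n : ℚ) • val x := by
  funext q
  have : Fact (q : ℕ).Prime := ⟨q.2⟩
  simp [val]

theorem val_prod {r : ℕ} (t : Fin r → ℚ) (ht : ∀ i, t i ≠ 0) (e : Fin r → ℤ)
    (s : Finset (Fin r)) : val (∏ i ∈ s, t i ^ e i) = ∑ i ∈ s, (e i : ℚ) • val (t i) := by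
  classical
  induction s using Finset.induction_on with
  | empty => simp [val_one]
  | insert a s ha ih =>
    rw [prod_insert ha, sum_insert ha, val_mul (zpow_ne_zero _ (ht a))
      (prod_ne_zero_iff.2 fun i _ => zpow_ne_zero _ (ht i)), ih, val_zpow]

/-- few integers with small valuations in a coset of a group of rank `r` -/
theorem count_coset (r : ℕ) (t : Fin r → ℚ) (ht : ∀ i, t i ≠ 0) (u : ℚ) (hu : u ≠ 0) (L : ℕ)
    (S : Finset ℕ) (hS : ∀ n ∈ S, n ≠ 0 ∧ (∃ e : Fin r → ℤ, (n : ℚ) = u * ∏ i, t i ^ e i) ∧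
      ∀ p, n.factorization p ≤ L) : S.card ≤ (L + 1) ^ r := by
  classical
  set φ : ℕ → Nat.Primes → ℕ := fun n q => n.factorization q with hφ
  have hinj : Set.InjOn φ S := by
    intro n hn n' hn' h
    refine Nat.eq_of_factorization_eq (hS n hn).1 (hS n' hn').1 fun p => ?_
    by_cases hp : p.Prime
    · exact congrFun h ⟨p, hp⟩
    · rw [Nat.factorization_eq_zero_of_not_prime _ hp, Nat.factorization_eq_zero_of_not_prime _ hp]
  rw [← card_image_of_injOn hinj]
  have hfin : FiniteDimensional ℚ (Submodule.span ℚ (Set.range fun i => val (t i))) :=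
    FiniteDimensional.span_of_finite ℚ (Set.finite_range _)
  refine lat L r (Submodule.span ℚ (Set.range fun i => val (t i))) hfin ?_ _ ?_ ?_
  · have h := finrank_range_le_card (R := ℚ) (fun i => val (t i))
    rw [Fintype.card_fin] at h
    exact h
  · intro s hs s' hs'
    obtain ⟨n, hn, rfl⟩ := mem_image.1 hs
    obtain ⟨n', hn', rfl⟩ := mem_image.1 hs'
    obtain ⟨h1, ⟨e, he⟩, -⟩ := hS n hn
    obtain ⟨h1', ⟨e', he'⟩, -⟩ := hS n' hn'
    have hv : ∀ m : ℕ, m ≠ 0 → val (m : ℚ) = fun q => ((φ m q : ℕ) : ℚ) := by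
      intro m hm
      funext q
      have : Fact (q : ℕ).Prime := ⟨q.2⟩
      simp only [val, hφ]
      rw [padicValRat.of_nat, Nat.factorization_def _ q.2]
      simp
    have hne : ∀ e : Fin r → ℤ, ∏ i, t i ^ e i ≠ 0 := fun e =>
      prod_ne_zero_iff.2 fun i _ => zpow_ne_zero _ (ht i)
    have h2 : val (n : ℚ) - val (n' : ℚ) = ∑ i, ((e i : ℚ) - e' i) • val (t i) := by
      rw [he, he', val_mul hu (hne e), val_mul hu (hne e'), val_prod t ht e, val_prod t ht e']
      simp only [sub_smul, sum_sub_distrib]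
      abel
    have h3 : (fun i => ((φ n i : ℕ) : ℚ) - φ n' i) = val (n : ℚ) - val (n' : ℚ) := by
      rw [hv n h1, hv n' h1']
      rfl
    rw [h3, h2]
    exact Submodule.sum_mem _ fun i _ => Submodule.smul_mem _ _
      (Submodule.subset_span (Set.mem_range_self i))
  · intro s hs i
    obtain ⟨n, hn, rfl⟩ := mem_image.1 hs
    exact (hS n hn).2.2 i

end Pool.Agent.Run7.h84.MG
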